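import Pool.Agent.L7h35.RQ5.Stm

/-!
# Project QR, part FEK
-/

set_option autoImplicit false

namespace Pool.Agent.L7h66.RQ5

open Filter Topology Pool.Agent.L7h35.RQ5

lemma pow_le {f : ℕ → ℕ} (hsub : ∀ m n, f (m * n) ≤ f m * f n) (m k : ℕ) :
    f (m ^ (k + 1)) ≤ f m ^ (k + 1) := by
  induction k with
  | zero => simp
  | succ k ih =>
    calc f (m ^ (k + 1 + 1)) = f (m ^ (k + 1) * m) := by rw [pow_succ m (k + 1)]
      _ ≤ f (m ^ (k + 1)) * f m := hsub _ _
      _ ≤ f m ^ (k + 1) * f m := Nat.mul_le_mul_right _ ih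
      _ = f m ^ (k + 1 + 1) := (pow_succ _ _).symm

theorem s_FEK : S_FEK := by
  intro f hmono hsub hlow
  set g : ℕ → ℝ := fun n => Real.log (f n) / Real.log n with hgdef
  have hf1 : ∀ n, 1 ≤ n → 1 ≤ f n := by
    intro n hn
    by_contra h
    have h0 : f n = 0 := by omega
    have h1 := hlow n
    rw [h0] at h1
    simp at h1
    omega
  have hlog : ∀ n : ℕ, 2 ≤ n → 0 < Real.log n := fun n hn =>
    Real.log_pos (by exact_mod_cast hn)
  have hg : ∀ n, 2 ≤ n → 1 / 2 ≤ g n := by
    intro n hn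
    have hn0 : (0 : ℝ) < n := by exact_mod_cast (by omega : 0 < n)
    have h1 : (n : ℝ) ≤ (f n : ℝ) ^ 2 := by exact_mod_cast hlow n
    have h2 : Real.log n ≤ 2 * Real.log (f n) := by
      have h3 := Real.log_le_log hn0 h1
      rwa [Real.log_pow, Nat.cast_ofNat] at h3
    rw [hgdef]
    show 1 / 2 ≤ Real.log (f n) / Real.log n
    rw [le_div_iff₀ (hlog n hn)]
    linarith
  set L := sInf (g '' {n | 2 ≤ n}) with hLdef
  have hbdd : BddBelow (g '' {n | 2 ≤ n}) :=
    ⟨1 / 2, by rintro _ ⟨n, hn, rfl⟩; exact hg n hn⟩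
  have hne : (g '' {n | 2 ≤ n}).Nonempty := ⟨g 2, 2, le_refl 2, rfl⟩
  have hL : ∀ n, 2 ≤ n → L ≤ g n := fun n hn => csInf_le hbdd ⟨n, hn, rfl⟩
  refine ⟨L, ?_, ?_, ?_⟩
  · rw [Metric.tendsto_atTop]
    intro ε hε
    obtain ⟨_, ⟨m, hm, rfl⟩, hmε⟩ := exists_lt_of_csInf_lt hne
      (show sInf (g '' {n | 2 ≤ n}) < L + ε / 2 by rw [← hLdef]; linarith)
    have hm2 : 2 ≤ m := hm
    obtain ⟨K, hK⟩ := exists_nat_gt (g m / (ε / 2))
    refine ⟨m ^ (K + 1), fun n hn => ?_⟩
    have hmK : 2 ≤ m ^ (K + 1) := by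
      calc 2 ≤ m := hm2
        _ = m ^ 1 := (pow_one m).symm
        _ ≤ m ^ (K + 1) := Nat.pow_le_pow_right (by omega) (by omega)
    have hn2 : 2 ≤ n := hmK.trans hn
    have hn0 : n ≠ 0 := by omega
    set k := Nat.log m n with hk
    have h1 : m ^ k ≤ n := Nat.pow_log_le_self m hn0
    have h2 : n < m ^ (k + 1) := Nat.lt_pow_succ_log_self (by omega) n
    have hkK : K + 1 ≤ k := Nat.le_log_of_pow_le (by omega) hn
    have hk0 : (0 : ℝ) < k := by exact_mod_cast (by omega : 0 < k)
    have h3 : f n ≤ f m ^ (k + 1) := (hmono h2.le).trans (pow_le hsub m k)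
    have hfn : (0 : ℝ) < f n := by exact_mod_cast hf1 n (by omega)
    have hfm : (1 : ℝ) ≤ f m := by exact_mod_cast hf1 m (by omega)
    have h4 : Real.log (f n) ≤ (k + 1) * Real.log (f m) := by
      have h5 : (f n : ℝ) ≤ (f m : ℝ) ^ (k + 1) := by exact_mod_cast h3
      have h6 := Real.log_le_log hfn h5
      rw [Real.log_pow] at h6
      push_cast at h6
      exact h6
    have h5 : (k : ℝ) * Real.log m ≤ Real.log n := by
      have h6 : (m : ℝ) ^ k ≤ n := by exact_mod_cast h1
      have h7 := Real.log_le_log (pow_pos (by exact_mod_cast (by omega : 0 < m)) k) h6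
      rwa [Real.log_pow] at h7
    have hlm := hlog m hm2
    have hln := hlog n hn2
    have hgm : 0 ≤ g m := le_trans (by norm_num) (hg m hm2)
    have hgm2 : g m * Real.log m = Real.log (f m) := by
      show Real.log (f m) / Real.log m * Real.log m = _
      exact div_mul_cancel₀ _ hlm.ne'
    have h6 : g n ≤ g m + g m / k := by
      show Real.log (f n) / Real.log n ≤ _
      rw [div_le_iff₀ hln]
      calc Real.log (f n) ≤ (k + 1) * Real.log (f m) := h4
        _ = (g m + g m / k) * (k * Real.log m) := by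
          rw [← hgm2]
          field_simp
        _ ≤ (g m + g m / k) * Real.log n := by
          refine mul_le_mul_of_nonneg_left h5 ?_
          have := div_nonneg hgm hk0.le
          linarith
    have h7 : g m / k < ε / 2 := by
      have h8 : (K : ℝ) < k := by exact_mod_cast (by omega : K < k)
      rw [div_lt_iff₀ hk0]
      rw [div_lt_iff₀ (by positivity)] at hK
      nlinarith
    rw [Real.dist_eq, abs_lt]
    have h8 := hL n hn2
    constructor
    · linarith
    · show g n - L < ε
      linarith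
  · exact le_csInf hne (by rintro _ ⟨n, hn, rfl⟩; exact hg n hn)
  · intro n
    rcases Nat.lt_or_ge n 2 with h | h
    · rcases Nat.eq_zero_or_pos n with h0 | h0
      · exact Or.inr h0
      · have h1 : n = 1 := by omega
        subst h1
        left
        rw [Nat.cast_one, Real.one_rpow]
        exact_mod_cast hf1 1 le_rfl
    · left
      have hn0 : (0 : ℝ) < n := by exact_mod_cast (by omega : 0 < n)
      have hfn : (0 : ℝ) < f n := by exact_mod_cast hf1 n (by omega)
      have h1 : L * Real.log n ≤ Real.log (f n) := by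
        have h2 := hL n h
        rw [← le_div_iff₀ (hlog n h)]
        exact h2
      rw [← Real.exp_log hfn, Real.rpow_def_of_pos hn0]
      apply Real.exp_le_exp.2
      linarith

end Pool.Agent.L7h66.RQ5
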